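import Pool.Agent.U390.AN
import Pool.Agent.Results.MP_309968_ag.BoundaryRays

set_option autoImplicit false

/-!
# The strong Nagata inequality up to a factor `1 + ε`, and nef classes with arbitrary small weights

Let `0 < ε ≤ 1`. For every `n` and very general points of the plane, every class
`(1 + ε) √(∑ x i ^ 2) H - ∑ x i E i` with nonnegative real weights `x i` which satisfy
`288 x i ^ 2 ≤ ε ^ 3 ∑ x j ^ 2` is nonnegative on all curves. In particular, if `T` is a set of the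
points and the multiplicities `m i` of a curve of degree `e` satisfy
`288 m i ^ 2 ≤ ε ^ 3 ∑_{j ∈ T} m j ^ 2` for `i ∈ T`, then `∑_{j ∈ T} m j ^ 2 ≤ (1 + ε) ^ 2 e ^ 2`.
-/

namespace Pool.Agent.Results.MP_b180eb_ag.AlmostNagataAllWeights

open Pool.Agent.H932R3 Pool.Agent.H350R3 Pool.Agent.H350R3.GR

/-- `MultGE a F m`: the form `F` has multiplicity at least `m` at the point `(a 0 : a 1 : 1)`. -/
def MultGE (a : Fin 2 → ℂ) (F : MvPolynomial (Fin 3) ℂ) (m : ℕ) : Prop :=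
  ∀ s ∈ (MvPolynomial.aeval
    ![(MvPolynomial.X 0 : MvPolynomial (Fin 2) ℂ) + MvPolynomial.C (a 0),
      (MvPolynomial.X 1 : MvPolynomial (Fin 2) ℂ) + MvPolynomial.C (a 1),
      (1 : MvPolynomial (Fin 2) ℂ)] F).support, m ≤ s 0 + s 1

theorem noForm_ext {n N e : ℕ} {g : Fin N → Fin n}
    (hg : Function.Injective g) {m : Fin n → ℕ} {x : Fin N → Fin 2 → ℂ}
    (hx : NB.Emp (fun j => m (g j)) x e) :
    NoForm (ptJ (Function.extend g x 0) m) e := by
  refine (noForm_of_emp hx).anti ?_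
  unfold ptJ vIdeal
  refine le_iInf fun j => ?_
  have h2 := iInf_le (fun a => Pool.Agent.H932R2.cIdeal
    (fun _ : Fin 1 => (Function.extend g x 0 : Fin n → Fin 2 → ℂ) a 0)
    (Polynomial.C ((Function.extend g x 0 : Fin n → Fin 2 → ℂ) a 1)) (m a)) (g j)
  simp only [hg.extend_apply] at h2
  exact h2

/-- Part (1): for `0 < ε ≤ 1`, very general points `p` and nonnegative real weights `x i` with
`288 x i ^ 2 ≤ ε ^ 3 ∑ x j ^ 2` the class `(1 + ε) √(∑ x i ^ 2) H - ∑ x i E i` is nonnegative on all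
curves. Part (2): if `T` is a set of the points and the multiplicities `m i` of a curve of degree
`e` satisfy `288 m i ^ 2 ≤ ε ^ 3 ∑_{j ∈ T} m j ^ 2` for `i ∈ T`, then
`∑_{j ∈ T} m j ^ 2 ≤ (1 + ε) ^ 2 e ^ 2`. The very general points do not depend on `ε`. -/
theorem result (n : ℕ) :
    ∃ f : ℕ → MvPolynomial (Fin n × Fin 2) ℂ, (∀ k, f k ≠ 0) ∧
      ∀ p : Fin n → Fin 2 → ℂ,
        (∀ k, MvPolynomial.eval (fun q : Fin n × Fin 2 => p q.1 q.2) (f k) ≠ 0) →
        ∀ ε : ℝ, 0 < ε → ε ≤ 1 →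
          ∀ (F : MvPolynomial (Fin 3) ℂ) (e : ℕ) (m : Fin n → ℕ), F.IsHomogeneous e → F ≠ 0 →
            (∀ i, MultGE (p i) F (m i)) →
            (∀ x : Fin n → ℝ, (∀ i, 0 ≤ x i) → (∀ i, 288 * x i ^ 2 ≤ ε ^ 3 * ∑ j, x j ^ 2) →
              ∑ i, x i * (m i : ℝ) ≤ (1 + ε) * √(∑ j, x j ^ 2) * e) ∧
            (∀ T : Finset (Fin n),
              (∀ i ∈ T, 288 * (m i : ℝ) ^ 2 ≤ ε ^ 3 * ∑ j ∈ T, (m j : ℝ) ^ 2) →
              ∑ j ∈ T, (m j : ℝ) ^ 2 ≤ (1 + ε) ^ 2 * (e : ℝ) ^ 2) := by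
  classical
  obtain ⟨f, hf, hf'⟩ := exists_conds_all (K := ℂ) n
  refine ⟨f, hf, fun p hp ε hε hε1 F e m hF hF0 hm => ?_⟩
  have hA : ∀ (N : ℕ) (g : Fin N → Fin n) (x : Fin N → ℝ) (c : ℝ),
      Function.Injective g → NB.Nf ℂ x c → ∑ j, x j * (m (g j) : ℝ) ≤ c * e := by
    intro N g x c hg hG
    by_contra hcon
    push Not at hcon
    obtain ⟨z, hz⟩ := hG (fun j => m (g j)) e (by linarith)
    refine hF0 (hf' p hp e m ⟨_, noForm_ext hg hz⟩ F hF ?_)
    unfold ptJ vIdeal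
    rw [Ideal.mem_iInf]
    intro i
    exact mem_of_support (p := p i) (hm i)
  have h1 : ∀ x : Fin n → ℝ, (∀ i, 0 ≤ x i) → (∀ i, 288 * x i ^ 2 ≤ ε ^ 3 * ∑ j, x j ^ 2) →
      ∑ i, x i * (m i : ℝ) ≤ (1 + ε) * √(∑ j, x j ^ 2) * e := by
    intro x hx0 hx
    have hsum : ∀ h : Fin n → ℝ, (∀ i, x i = 0 → h i = 0) →
        ∑ i : {i // 0 < x i}, h i.1 = ∑ i, h i := by
      intro h hh
      rw [← Finset.sum_subtype (Finset.univ.filter fun i => 0 < x i) (fun i => by simp) h]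
      refine Finset.sum_subset (Finset.subset_univ _) fun i _ hi => hh i ?_
      rw [Finset.mem_filter] at hi
      push Not at hi
      exact le_antisymm (hi (Finset.mem_univ _)) (hx0 i)
    have hS : ∑ i : {i // 0 < x i}, x i.1 ^ 2 = ∑ i, x i ^ 2 :=
      hsum (fun i => x i ^ 2) fun i hi => by simp only [hi]; norm_num
    have hX : ∑ i : {i // 0 < x i}, x i.1 * (m i.1 : ℝ) = ∑ i, x i * (m i : ℝ) :=
      hsum (fun i => x i * (m i : ℝ)) fun i hi => by simp only [hi, zero_mul]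
    rcases isEmpty_or_nonempty {i // 0 < x i} with hE | hE
    · rw [← hX, Finset.univ_eq_empty, Finset.sum_empty]
      positivity
    · have hnf := Pool.Agent.U390.AN.nf_almost hε hε1 (fun i : {i // 0 < x i} => x i.1)
        (fun i => i.2) (fun i => by
          rw [hS]
          exact hx i.1)
      rw [hS] at hnf
      let E := Fintype.equivFin {i // 0 < x i}
      have h2 := hA _ (fun j => (E.symm j : Fin n)) (fun j => x (E.symm j).1) _
        (fun j j' h => E.symm.injective (Subtype.ext h)) (hnf.equiv E)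
      rw [← hX, ← E.symm.sum_comp (fun i : {i // 0 < x i} => x i.1 * (m i.1 : ℝ))]
      exact h2
  refine ⟨h1, fun T hmm => ?_⟩
  obtain ⟨S, hS⟩ : ∃ S : ℝ, S = ∑ j ∈ T, (m j : ℝ) ^ 2 := ⟨_, rfl⟩
  have hS0 : 0 ≤ S := by rw [hS]; exact Finset.sum_nonneg fun i _ => sq_nonneg _
  have hx2 : ∑ j, (if j ∈ T then (m j : ℝ) else 0) ^ 2 = S := by
    rw [hS, ← Finset.sum_filter_add_sum_filter_not Finset.univ (fun j => j ∈ T)]
    have e1 : ∑ j with j ∈ T, (if j ∈ T then (m j : ℝ) else 0) ^ 2 = ∑ j ∈ T, (m j : ℝ) ^ 2 := by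
      rw [Finset.filter_univ_mem]
      exact Finset.sum_congr rfl fun j hj => by rw [if_pos hj]
    have e2 : ∑ j with j ∉ T, (if j ∈ T then (m j : ℝ) else 0) ^ 2 = 0 :=
      Finset.sum_eq_zero fun j hj => by rw [if_neg (Finset.mem_filter.1 hj).2]; norm_num
    rw [e1, e2, add_zero]
  have h2 := h1 (fun i => if i ∈ T then (m i : ℝ) else 0)
    (fun i => by
      show (0 : ℝ) ≤ if i ∈ T then (m i : ℝ) else 0
      split_ifs
      · exact Nat.cast_nonneg _
      · exact le_rfl)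
    (fun i => by
      show 288 * (if i ∈ T then (m i : ℝ) else 0) ^ 2 ≤
        ε ^ 3 * ∑ j, (if j ∈ T then (m j : ℝ) else 0) ^ 2
      rw [hx2]
      by_cases hi : i ∈ T
      · rw [if_pos hi, hS]; exact hmm i hi
      · have h0 : 0 ≤ ε ^ 3 * S := by positivity
        rw [if_neg hi]
        linarith)
  have h3 : ∑ i, (if i ∈ T then (m i : ℝ) else 0) * (m i : ℝ) = S := by
    rw [← hx2]
    refine Finset.sum_congr rfl fun j _ => ?_
    split_ifs
    · ring
    · norm_num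
  rw [h3, hx2] at h2
  rw [← hS]
  have hr0 : 0 ≤ √S := Real.sqrt_nonneg _
  have hr : √S * √S = S := Real.mul_self_sqrt hS0
  have he0 : (0 : ℝ) ≤ e := Nat.cast_nonneg e
  have h4 : √S ≤ (1 + ε) * e := by
    rcases hr0.eq_or_lt with h0 | h0
    · rw [← h0]; positivity
    · by_contra hcon
      push Not at hcon
      have h5 : √S * ((1 + ε) * e) < √S * √S := mul_lt_mul_of_pos_left hcon h0
      nlinarith
  calc S = √S * √S := hr.symm
    _ ≤ ((1 + ε) * e) * ((1 + ε) * e) := mul_le_mul h4 h4 hr0 (by positivity)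
    _ = (1 + ε) ^ 2 * (e : ℝ) ^ 2 := by ring

end Pool.Agent.Results.MP_b180eb_ag.AlmostNagataAllWeights
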